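import Pool.Agent.TH853.Reg.Values

set_option autoImplicit false

/-!
# Short polynomials and short steps: heights, and programs for them
-/

namespace Pool.Agent.TH853.Dag

open Polynomial Pool.Agent.H537R6 Pool.Agent.TH853.Reg

variable {e b : ℕ}

/-- bit length of the results -/
def bt (e b B s : ℕ) : ℕ := (s + 3 * e + b + B * e) * (e + 1)

theorem short_small {S : Finset ℚ} {B s : ℕ} (hS : ∀ x ∈ S, HB (2 ^ B) x) {f : ℤ[X]}
    (hd : f.natDegree ≤ e) (hf : CB (2 ^ b) f) : Small S (bt e b B s) f := by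
  intro x hx
  obtain ⟨a, h1, h2⟩ := val2 hd hf (hS x hx)
  have hq0 : x.den ^ e ≠ 0 := pow_ne_zero _ x.den_nz
  have h3 : 2 ^ (e + b + B * e) ≤ 2 ^ bt e b B s := by
    refine Nat.pow_le_pow_right (by norm_num) ?_
    have h4 : (s + 3 * e + b + B * e) * 1 ≤ (s + 3 * e + b + B * e) * (e + 1) :=
      Nat.mul_le_mul_left _ (by omega)
    rw [bt]
    omega
  exact HB_of_div hq0 (by push_cast; exact h1) (h2.trans h3)
    ((den_pow_le (hS x hx)).trans h3)

theorem step_small {S : Finset ℚ} {B s : ℕ} (hS : ∀ x ∈ S, HB (2 ^ B) x) {v : ℤ[X]}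
    (hv : ∀ x ∈ S, HB (2 ^ (s + 2 * e + b + B * e)) (aeval x v)) {R : ℤ[X][X]}
    (hR : R.natDegree ≤ e) (hC : CS e b R) : Small S (bt e b B s) (R.eval v) := by
  intro x hx
  have hxb := hS x hx
  obtain ⟨u, hu⟩ : ∃ u : ℚ, u = aeval x v := ⟨_, rfl⟩
  have hub := hv x hx
  rw [← hu] at hub
  have hq0 : (x.den : ℚ) ≠ 0 := by exact_mod_cast x.den_nz
  have hv' : ∀ i, ∃ a : ℤ, aeval x (R.coeff i) * (x.den : ℚ) ^ e = a ∧
      a.natAbs ≤ 2 ^ (e + b + B * e) := fun i => val2 (hC i).1 (hC i).2 hxb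
  choose a ha1 ha2 using hv'
  obtain ⟨U, hU⟩ : ∃ U : ℕ, U = 2 ^ (s + 2 * e + b + B * e) := ⟨_, rfl⟩
  rw [← hU] at hub
  have hU1 : 1 ≤ U := hU ▸ Nat.one_le_two_pow
  have hbig : 2 ^ e * (2 ^ (e + b + B * e) * U ^ e) ≤ 2 ^ bt e b B s := by
    rw [hU, ← pow_mul, ← pow_add, ← pow_add]
    refine Nat.pow_le_pow_right (by norm_num) ?_
    have h5 : (s + 2 * e + b + B * e) * e ≤ (s + 3 * e + b + B * e) * e :=
      Nat.mul_le_mul_right _ (by omega)
    have h6 : bt e b B s = (s + 3 * e + b + B * e) * e + (s + 3 * e + b + B * e) := by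
      rw [bt]
      ring
    omega
  have hden : x.den ^ e * u.den ^ e ≠ 0 :=
    Nat.mul_ne_zero (pow_ne_zero _ x.den_nz) (pow_ne_zero _ u.den_nz)
  refine HB_of_div (a := ∑ i ∈ Finset.range (e + 1), a i * u.num ^ i * (u.den : ℤ) ^ (e - i))
    hden ?_ ?_ ?_
  · rw [aeval_step R v x (e + 1) (by omega), ← hu, Finset.sum_mul]
    push_cast
    refine Finset.sum_congr rfl fun i hi => ?_
    rw [Finset.mem_range] at hi
    have h1 : (u.num : ℚ) = u * u.den := (Rat.mul_den_eq_num u).symm
    have h2 : (u.den : ℚ) ^ e = (u.den : ℚ) ^ i * (u.den : ℚ) ^ (e - i) := by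
      rw [← pow_add]
      congr 1
      omega
    rw [h1, ← ha1 i, h2, mul_pow]
    ring
  · refine ((Int.natAbs_sum_le _ _).trans ?_).trans hbig
    have h1 : ∀ i ∈ Finset.range (e + 1),
        (a i * u.num ^ i * (u.den : ℤ) ^ (e - i)).natAbs ≤
          2 ^ (e + b + B * e) * U ^ e := by
      intro i hi
      rw [Finset.mem_range] at hi
      rw [Int.natAbs_mul, Int.natAbs_mul, Int.natAbs_pow, Int.natAbs_pow, Int.natAbs_natCast,
        mul_assoc]
      refine Nat.mul_le_mul (ha2 i) ?_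
      have h2 : U ^ e = U ^ i * U ^ (e - i) := by
        rw [← pow_add]
        congr 1
        omega
      rw [h2]
      exact Nat.mul_le_mul (Nat.pow_le_pow_left hub.1 _) (Nat.pow_le_pow_left hub.2 _)
    have h2 := Finset.sum_le_card_nsmul _ _ _ h1
    rw [Finset.card_range, smul_eq_mul] at h2
    exact h2.trans (Nat.mul_le_mul_right _ (self_le_two_pow e))
  · refine le_trans ?_ hbig
    have h1 : x.den ^ e ≤ 2 ^ (e + b + B * e) := den_pow_le hxb
    have h2 : u.den ^ e ≤ U ^ e := Nat.pow_le_pow_left hub.2 _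
    calc x.den ^ e * u.den ^ e ≤ 2 ^ (e + b + B * e) * U ^ e := Nat.mul_le_mul h1 h2
      _ ≤ 2 ^ e * (2 ^ (e + b + B * e) * U ^ e) :=
        Nat.le_mul_of_pos_left _ (by positivity)

theorem short_reach {S : Finset ℚ} {B s : ℕ} (he : 1 ≤ e) (hS : ∀ x ∈ S, HB (2 ^ B) x) :
    ∀ (d : ℕ) (f : ℤ[X]), d ≤ e → f.natDegree ≤ d → CB (2 ^ b) f →
      Reach (Small S (bt e b B s)) f := by
  have hconst : ∀ a : ℤ, a.natAbs ≤ 2 ^ b → Reach (Small S (bt e b B s)) (C a) := by
    intro a ha
    refine Reach.const a (short_small hS (by simp) ?_)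
    intro j
    rw [coeff_C]
    split_ifs with h0
    · exact ha
    · simp
  have hX : Reach (Small S (bt e b B s)) X := by
    refine Reach.var (short_small hS (by simpa using he) ?_)
    intro j
    rw [coeff_X]
    split_ifs with h0
    · simpa using Nat.one_le_two_pow
    · simp
  intro d
  induction d with
  | zero =>
    intro f _ hf hC
    rw [eq_C_of_natDegree_le_zero hf]
    exact hconst _ (hC 0)
  | succ d ih =>
    intro f hd hf hC
    have h1 : CB (2 ^ b) (divX f) := fun j => by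
      rw [coeff_divX]
      exact hC (j + 1)
    have h2 : (divX f).natDegree ≤ d := by
      rw [natDegree_divX_eq_natDegree_tsub_one]
      omega
    have h3 := ih (divX f) (by omega) h2 h1
    have h4 : Reach (Small S (bt e b B s)) (divX f * X) := by
      refine Reach.mul _ _ h3 hX (short_small hS ?_ ?_)
      · refine natDegree_mul_le.trans ?_
        rw [natDegree_X]
        omega
      · intro j
        cases j with
        | zero => simp
        | succ j =>
          rw [coeff_mul_X]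
          exact h1 j
    have h5 : f = divX f * X + C (f.coeff 0) := (divX_mul_X_add f).symm
    rw [h5]
    refine Reach.add _ _ h4 (hconst _ (hC 0)) ?_
    rw [← h5]
    exact short_small hS (by omega) hC

theorem step_reach {S : Finset ℚ} {B s : ℕ} (he : 1 ≤ e) (hS : ∀ x ∈ S, HB (2 ^ B) x)
    {v : ℤ[X]} (hv : ∀ x ∈ S, HB (2 ^ (s + 2 * e + b + B * e)) (aeval x v))
    (hr : Reach (Small S (bt e b B s)) v) :
    ∀ (d : ℕ) (R : ℤ[X][X]), d ≤ e → R.natDegree ≤ d → CS e b R →
      Reach (Small S (bt e b B s)) (R.eval v) := by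
  intro d
  induction d with
  | zero =>
    intro R _ hR hC
    rw [eq_C_of_natDegree_le_zero hR, eval_C]
    exact short_reach he hS e _ le_rfl (hC 0).1 (hC 0).2
  | succ d ih =>
    intro R hd hR hC
    have h1 : CS e b (divX R) := fun j => by
      rw [coeff_divX]
      exact hC (j + 1)
    have h2 : (divX R).natDegree ≤ d := by
      rw [natDegree_divX_eq_natDegree_tsub_one]
      omega
    have h3 := ih (divX R) (by omega) h2 h1
    have h4 : Reach (Small S (bt e b B s)) ((divX R).eval v * v) := by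
      refine Reach.mul _ _ h3 hr ?_
      have h5 : (divX R).eval v * v = (divX R * X).eval v := by rw [eval_mul, eval_X]
      rw [h5]
      refine step_small hS hv ?_ ?_
      · refine natDegree_mul_le.trans ?_
        rw [natDegree_X]
        omega
      · intro j
        cases j with
        | zero =>
          simp only [mul_coeff_zero, coeff_X_zero, mul_zero, natDegree_zero]
          exact ⟨Nat.zero_le _, fun j => by simp⟩
        | succ j =>
          rw [coeff_mul_X]
          exact h1 j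
    have h5 : R.eval v = (divX R).eval v * v + R.coeff 0 := by
      conv_lhs => rw [← divX_mul_X_add R]
      rw [eval_add, eval_mul, eval_X, eval_C]
    rw [h5]
    refine Reach.add _ _ h4 (short_reach he hS e _ le_rfl (hC 0).1 (hC 0).2) ?_
    rw [← h5]
    exact step_small hS hv (by omega) hC

/-- backward bound at an integer point -/
theorem back_int {m A : ℕ} (hm : 1 ≤ m) (a : ℕ → ℤ) (ha : ∀ i ≤ m, (a i).natAbs ≤ A)
    (ham : a m ≠ 0) (u : ℤ) :
    u.natAbs ≤ (∑ i ∈ Finset.range (m + 1), a i * u ^ i).natAbs + m * A := by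
  rcases eq_or_ne u 0 with h0 | h0
  · rw [h0]
    simp
  obtain ⟨m', rfl⟩ : ∃ m', m = m' + 1 := ⟨m - 1, by omega⟩
  obtain ⟨w, hw⟩ : ∃ w, w = ∑ i ∈ Finset.range (m' + 1 + 1), a i * u ^ i := ⟨_, rfl⟩
  rw [← hw]
  have hu : 1 ≤ u.natAbs := Int.natAbs_pos.2 h0
  have h1 : u.natAbs ^ (m' + 1) ≤ w.natAbs + (m' + 1) * (A * u.natAbs ^ m') := by
    have h2 : a (m' + 1) * u ^ (m' + 1) = w - ∑ i ∈ Finset.range (m' + 1), a i * u ^ i := by
      rw [hw, Finset.sum_range_succ _ (m' + 1)]
      ring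
    have h3 : u.natAbs ^ (m' + 1) ≤ (a (m' + 1) * u ^ (m' + 1)).natAbs := by
      rw [Int.natAbs_mul, Int.natAbs_pow]
      exact Nat.le_mul_of_pos_left _ (Int.natAbs_pos.2 ham)
    refine h3.trans ?_
    rw [h2]
    refine (Int.natAbs_sub_le _ _).trans (Nat.add_le_add_left ?_ _)
    refine (Int.natAbs_sum_le _ _).trans ?_
    have h4 : ∀ i ∈ Finset.range (m' + 1), (a i * u ^ i).natAbs ≤ A * u.natAbs ^ m' := by
      intro i hi
      rw [Finset.mem_range] at hi
      rw [Int.natAbs_mul, Int.natAbs_pow]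
      exact Nat.mul_le_mul (ha i (by omega)) (Nat.pow_le_pow_right hu (by omega))
    have h5 := Finset.sum_le_card_nsmul _ _ _ h4
    rwa [Finset.card_range, smul_eq_mul] at h5
  have h2 : 1 ≤ u.natAbs ^ m' := Nat.one_le_pow _ _ hu
  by_contra hcon
  push Not at hcon
  have h3 : (w.natAbs + (m' + 1) * A + 1) * u.natAbs ^ m' ≤ u.natAbs ^ (m' + 1) := by
    rw [pow_succ, mul_comm (u.natAbs ^ m')]
    exact Nat.mul_le_mul_right _ hcon
  have h4 : w.natAbs ≤ w.natAbs * u.natAbs ^ m' := Nat.le_mul_of_pos_right _ h2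
  nlinarith

end Pool.Agent.TH853.Dag
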