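import Pool.Agent.TH853.Dag.Gates
import Pool.Agent.H537R6.Asm2
import Pool.Agent.H537R6.U_SCL
import Pool.Agent.H537R6.U_RAD
import Pool.Agent.H537R6.U_MAT
import Pool.Agent.H537R6.U_VDM
import Pool.Agent.H537R6.U_PAD
import Pool.Agent.H537R6.U_LOG
import Pool.Agent.H537R6.U_NU2

set_option autoImplicit false

/-!
# Integer roots of programs with arbitrary products and short one-variable steps
-/

namespace Pool.Agent.TH853.Dag

open Polynomial Pool.Agent.H537R6 Pool.Agent.TH853.Reg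

variable {e b : ℕ}

/-- a step `y ↦ R (x, y)` -/
def StepP (e b : ℕ) (R : ℤ[X][X]) : Prop := 1 ≤ R.natDegree ∧ R.natDegree ≤ e ∧ CS e b R

theorem stepX (he : 1 ≤ e) : StepP e b (X : ℤ[X][X]) := by
  refine ⟨by simp, by simpa using he, fun i => ?_⟩
  rw [coeff_X]
  split_ifs with h
  · refine ⟨by simp, fun j => ?_⟩
    rw [coeff_one]
    split_ifs
    · simpa using Nat.one_le_two_pow
    · simp
  · exact ⟨by simp, fun j => by simp⟩

/-- the gates, with a polynomial `R k` chosen for every gate -/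
def Gate (e b : ℕ) (p : ℕ → ℤ[X]) (R : ℕ → ℤ[X][X]) (k : ℕ) : Prop :=
  ((p k).natDegree ≤ e ∧ CB (2 ^ b) (p k)) ∨ (∃ i < k, ∃ j < k, p k = p i * p j) ∨
    ∃ i < k, p k = (R k).eval (p i)

theorem aeval_int (n : ℤ) (f : ℤ[X]) : aeval (n : ℚ) f = ((f.eval n : ℤ) : ℚ) := by
  have h := aeval_algebraMap_apply_eq_algebraMap_eval (A := ℚ) n f
  simpa using h

theorem HB_int {H : ℕ} (hH : 1 ≤ H) {n : ℤ} (hn : n.natAbs ≤ H) : HB H (n : ℚ) := by
  refine ⟨?_, ?_⟩
  · rw [Rat.num_intCast]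
    exact hn
  · rw [Rat.den_intCast]
    exact hH

theorem eval_le {d B : ℕ} {f : ℤ[X]} (hd : f.natDegree ≤ d) (hf : CB (2 ^ b) f) {n : ℤ}
    (hn : n.natAbs ≤ 2 ^ B) : (f.eval n).natAbs ≤ 2 ^ (d + b + B * d) := by
  obtain ⟨a, h1, h2⟩ := val2 hd hf (HB_int Nat.one_le_two_pow hn)
  rw [Rat.den_intCast, aeval_int] at h1
  have h3 : f.eval n = a := by
    have h4 : ((f.eval n : ℤ) : ℚ) = a := by simpa using h1
    exact_mod_cast h4
  rw [h3]
  exact h2

theorem eval_step (R : ℤ[X][X]) (y : ℤ[X]) (n : ℤ) :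
    (R.eval y).eval n =
      ∑ i ∈ Finset.range (R.natDegree + 1), (R.coeff i).eval n * (y.eval n) ^ i := by
  rw [eval_eq_sum_range (p := R) (x := y), eval_finsetSum]
  refine Finset.sum_congr rfl fun i _ => ?_
  rw [eval_mul, eval_pow]

theorem one_scale {K : ℕ}
    (hK : ∀ (L b : ℕ) (g : ℕ → ℤ[X]) (S : Finset ℚ), IsSLP L g → g L ≠ 0 →
      1 ≤ b → (∀ x ∈ S, aeval x (g L) = 0) →
      (∀ x ∈ S, ∀ k ≤ L, (aeval x (g k)).num.natAbs ≤ 2 ^ b ∧ (aeval x (g k)).den ≤ 2 ^ b) →
      S.card ≤ K * (b * (Nat.log 2 b + 1)))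
    {L B s k : ℕ} {p : ℕ → ℤ[X]} {R : ℕ → ℤ[X][X]} (he : 1 ≤ e) (hs : L ≤ 2 ^ s)
    (hR : ∀ j, StepP e b (R j)) (hg : ∀ j ≤ L, Gate e b p R j) (hk : k ≤ L) (hpk : p k ≠ 0)
    (S : Finset ℤ) (hSB : ∀ n ∈ S, n.natAbs ≤ 2 ^ B) (hS0 : ∀ n ∈ S, (p k).eval n = 0)
    (hSi : ∀ n ∈ S, ∀ i < k, p i = 0 ∨ (p i).eval n ≠ 0)
    (hSR : ∀ n ∈ S, ∀ i ≤ L, ((R i).leadingCoeff).eval n ≠ 0) :
    S.card ≤ K * (bt e b B s * (Nat.log 2 (bt e b B s) + 1)) := by
  classical
  rcases S.eq_empty_or_nonempty with h0 | ⟨n₀, hn₀⟩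
  · rw [h0, Finset.card_empty]
    exact Nat.zero_le _
  obtain ⟨A, hA⟩ : ∃ A : ℕ, A = 2 ^ (e + b + B * e) := ⟨_, rfl⟩
  obtain ⟨S', hS'⟩ : ∃ S' : Finset ℚ, S' = S.image (fun n : ℤ => (n : ℚ)) := ⟨_, rfl⟩
  have hcard : S'.card = S.card := by
    rw [hS']
    exact Finset.card_image_of_injective _ Int.cast_injective
  have hmem : ∀ x ∈ S', ∃ n ∈ S, x = (n : ℚ) := by
    intro x hx
    rw [hS', Finset.mem_image] at hx
    obtain ⟨n, hn, h⟩ := hx
    exact ⟨n, hn, h.symm⟩
  have hSx : ∀ x ∈ S', HB (2 ^ B) x := by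
    intro x hx
    obtain ⟨n, hn, rfl⟩ := hmem x hx
    exact HB_int Nat.one_le_two_pow (hSB n hn)
  have hV : ∀ t ≤ L, t * (e * A) ≤ 2 ^ (s + 2 * e + b + B * e) := by
    intro t ht
    calc t * (e * A) ≤ 2 ^ s * (2 ^ e * A) := by
          refine Nat.mul_le_mul (ht.trans hs) (Nat.mul_le_mul_right _ ?_)
          have := self_le_two_pow e
          omega
      _ = 2 ^ (s + 2 * e + b + B * e) := by
          rw [hA, ← pow_add, ← pow_add]
          congr 1
          ring
  have hbt : s + 2 * e + b + B * e ≤ bt e b B s := by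
    have h4 : (s + 3 * e + b + B * e) * 1 ≤ (s + 3 * e + b + B * e) * (e + 1) :=
      Nat.mul_le_mul_left _ (by omega)
    rw [bt]
    omega
  have key : ∀ j ≤ k, (∀ n ∈ S, ((p j).eval n).natAbs ≤ (k - j) * (e * A)) →
      Reach (Small S' (bt e b B s)) (p j) := by
    intro j
    induction j using Nat.strong_induction_on with
    | _ j ih =>
      intro hj hval
      by_cases hp0 : p j = 0
      · rw [hp0]
        exact short_reach he hSx 0 0 (Nat.zero_le _) (by simp) (fun i => by simp)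
      have hsm : Small S' (bt e b B s) (p j) := by
        intro x hx
        obtain ⟨n, hn, rfl⟩ := hmem x hx
        rw [aeval_int]
        refine HB_int Nat.one_le_two_pow ?_
        refine (hval n hn).trans ((hV (k - j) (by omega)).trans ?_)
        exact Nat.pow_le_pow_right (by norm_num) hbt
      rcases hg j (by omega) with ⟨h1, h2⟩ | ⟨i, hi, i', hi', h1⟩ | ⟨i, hi, h1⟩
      · exact short_reach he hSx e (p j) le_rfl h1 h2
      · have hpi : p i ≠ 0 := by
          intro h2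
          rw [h2, zero_mul] at h1
          exact hp0 h1
        have hpi' : p i' ≠ 0 := by
          intro h2
          rw [h2, mul_zero] at h1
          exact hp0 h1
        rcases Nat.lt_or_ge j k with hjk | hjk
        · have hne : ∀ n ∈ S, (p i).eval n ≠ 0 ∧ (p i').eval n ≠ 0 := by
            intro n hn
            rcases hSi n hn j hjk with h2 | h2
            · exact absurd h2 hp0
            · rw [h1, eval_mul] at h2
              exact ⟨left_ne_zero_of_mul h2, right_ne_zero_of_mul h2⟩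
          have r1 := ih i hi (by omega) (fun n hn => by
            refine le_trans ?_ ((hval n hn).trans (Nat.mul_le_mul_right _ (by omega)))
            rw [h1, eval_mul, Int.natAbs_mul]
            exact Nat.le_mul_of_pos_right _ (Int.natAbs_pos.2 (hne n hn).2))
          have r2 := ih i' hi' (by omega) (fun n hn => by
            refine le_trans ?_ ((hval n hn).trans (Nat.mul_le_mul_right _ (by omega)))
            rw [h1, eval_mul, Int.natAbs_mul]
            exact Nat.le_mul_of_pos_left _ (Int.natAbs_pos.2 (hne n hn).1))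
          rw [h1]
          refine Reach.mul _ _ r1 r2 ?_
          rw [← h1]
          exact hsm
        · exfalso
          have hjk' : j = k := by omega
          have h2 := hS0 n₀ hn₀
          rw [← hjk', h1, eval_mul] at h2
          rcases mul_eq_zero.mp h2 with h3 | h3
          · rcases hSi n₀ hn₀ i (by omega) with h4 | h4
            · exact hpi h4
            · exact h4 h3
          · rcases hSi n₀ hn₀ i' (by omega) with h4 | h4
            · exact hpi' h4
            · exact h4 h3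
      · obtain ⟨hR1, hR2, hR3⟩ := hR j
        have hvi : ∀ n ∈ S, ((p i).eval n).natAbs ≤ (k - i) * (e * A) := by
          intro n hn
          have h2 := back_int (A := A) hR1 (fun t => ((R j).coeff t).eval n)
            (fun t _ => by
              rw [hA]
              exact eval_le (hR3 t).1 (hR3 t).2 (hSB n hn))
            (hSR n hn j (by omega)) ((p i).eval n)
          rw [← eval_step, ← h1] at h2
          refine h2.trans ((Nat.add_le_add (hval n hn)
            (Nat.mul_le_mul_right A hR2)).trans ?_)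
          calc (k - j) * (e * A) + e * A = (k - j + 1) * (e * A) := by ring
            _ ≤ (k - i) * (e * A) := Nat.mul_le_mul_right _ (by omega)
        have r1 := ih i hi (by omega) hvi
        rw [h1]
        refine step_reach he hSx (fun x hx => ?_) r1 e (R j) le_rfl hR2 hR3
        obtain ⟨n, hn, rfl⟩ := hmem x hx
        rw [aeval_int]
        exact HB_int Nat.one_le_two_pow ((hvi n hn).trans (hV (k - i) (by omega)))
  obtain ⟨L', g, hg1, hg2, hg3⟩ := (key k le_rfl (fun n hn => by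
    rw [hS0 n hn]
    simp)).slp
  have hb1 : 1 ≤ bt e b B s := by
    rw [bt]
    have : 0 < (s + 3 * e + b + B * e) * (e + 1) := Nat.mul_pos (by omega) (by omega)
    omega
  have h := hK L' (bt e b B s) g S' hg1 (by rw [hg2]; exact hpk) hb1
    (fun x hx => by
      obtain ⟨n, hn, rfl⟩ := hmem x hx
      rw [hg2, aeval_int, hS0 n hn]
      rfl) (fun x hx j hj => hg3 j hj x hx)
  rwa [hcard] at h

/-- the final inequality -/
theorem numeric {K L e b B t z : ℕ} (he : 1 ≤ e)
    (ht : t ≤ K * (bt e b B (Nat.log 2 (L + 1) + 1) *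
      (Nat.log 2 (bt e b B (Nat.log 2 (L + 1) + 1)) + 1)))
    (hz : z ≤ (L + 1) * e + (L + 1) * t) :
    z ≤ (24 * K + 1) * ((L + 1) * (e * (b + e * (B + 1) + Nat.log 2 (L + 1) + 1) *
      (Nat.log 2 (e * (b + e * (B + 1) + Nat.log 2 (L + 1) + 1)) + 1))) := by
  obtain ⟨l, hl⟩ : ∃ l, l = Nat.log 2 (L + 1) := ⟨_, rfl⟩
  rw [← hl] at ht ⊢
  obtain ⟨N, hN⟩ : ∃ N, N = b + e * (B + 1) + l + 1 := ⟨_, rfl⟩
  rw [← hN]
  obtain ⟨M, hM⟩ : ∃ M, M = e * N := ⟨_, rfl⟩
  rw [← hM]
  have hN1 : 1 ≤ N := by omega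
  have hbt : bt e b B (l + 1) ≤ 6 * M := by
    have h1 : l + 1 + 3 * e + b + B * e ≤ 3 * N := by
      have h2 : e * (B + 1) = B * e + e := by ring
      omega
    calc bt e b B (l + 1) = (l + 1 + 3 * e + b + B * e) * (e + 1) := rfl
      _ ≤ 3 * N * (2 * e) := Nat.mul_le_mul h1 (by omega)
      _ = 6 * M := by rw [hM]; ring
  have hM1 : 0 < M := by
    rw [hM]
    exact Nat.mul_pos (by omega) (by omega)
  have hlog : Nat.log 2 (bt e b B (l + 1)) ≤ Nat.log 2 M + 3 := by
    have h1 : Nat.log 2 (M * 2 ^ 3) = Nat.log 2 M + 3 := by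
      rw [pow_succ, pow_succ, pow_succ, pow_zero, one_mul, ← mul_assoc, ← mul_assoc,
        Nat.log_mul_base (by norm_num) (by omega),
        Nat.log_mul_base (by norm_num) (by omega), Nat.log_mul_base (by norm_num) (by omega)]
    rw [← h1]
    exact Nat.log_mono_right (by omega)
  have h1 : t ≤ K * (6 * M * (4 * (Nat.log 2 M + 1))) := by
    refine ht.trans (Nat.mul_le_mul_left _ (Nat.mul_le_mul hbt ?_))
    omega
  have h2 : e ≤ M * (Nat.log 2 M + 1) := by
    have h3 : e ≤ M := by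
      rw [hM]
      exact Nat.le_mul_of_pos_right _ hN1
    exact h3.trans (Nat.le_mul_of_pos_right _ (by omega))
  calc z ≤ (L + 1) * e + (L + 1) * t := hz
    _ ≤ (L + 1) * (M * (Nat.log 2 M + 1)) + (L + 1) * (K * (6 * M * (4 * (Nat.log 2 M + 1)))) :=
      Nat.add_le_add (Nat.mul_le_mul_left _ h2) (Nat.mul_le_mul_left _ h1)
    _ = (24 * K + 1) * ((L + 1) * (M * (Nat.log 2 M + 1))) := by ring

theorem card_roots_int (f : ℤ[X]) (T : Finset ℤ) (hf : f ≠ 0) :
    (T.filter fun n => f.eval n = 0).card ≤ f.natDegree := by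
  classical
  have h1 : (T.filter fun n => f.eval n = 0) ⊆ f.roots.toFinset := by
    intro n hn
    rw [Finset.mem_filter] at hn
    rw [Multiset.mem_toFinset, mem_roots hf]
    exact hn.2
  exact (Finset.card_le_card h1).trans ((Multiset.toFinset_card_le _).trans (card_roots' f))

theorem main : ∃ K : ℕ, ∀ (L e b B : ℕ) (p : ℕ → ℤ[X]), 1 ≤ e →
    (∀ k ≤ L, ((p k).natDegree ≤ e ∧ CB (2 ^ b) (p k)) ∨ (∃ i < k, ∃ j < k, p k = p i * p j) ∨
      ∃ i < k, ∃ R : ℤ[X][X], StepP e b R ∧ p k = R.eval (p i)) →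
    p L ≠ 0 →
    ((Finset.Icc (-(2 : ℤ) ^ B) (2 ^ B)).filter fun n => (p L).eval n = 0).card ≤
      K * ((L + 1) * (e * (b + e * (B + 1) + Nat.log 2 (L + 1) + 1) *
        (Nat.log 2 (e * (b + e * (B + 1) + Nat.log 2 (L + 1) + 1)) + 1))) := by
  classical
  obtain ⟨K, hK⟩ := u_FI2 u_SCL u_RAD u_MAT (u_PAD u_VDM) u_LOG u_NU2
  refine ⟨24 * K + 1, fun L e b B p he hp hL => ?_⟩
  have hex : ∀ k, ∃ R : ℤ[X][X], StepP e b R ∧ (k ≤ L →
      ((p k).natDegree ≤ e ∧ CB (2 ^ b) (p k)) ∨ (∃ i < k, ∃ j < k, p k = p i * p j) ∨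
        ∃ i < k, p k = R.eval (p i)) := by
    intro k
    by_cases hk : k ≤ L
    · rcases hp k hk with h1 | h1 | ⟨i, hi, R, hR, h1⟩
      · exact ⟨X, stepX he, fun _ => Or.inl h1⟩
      · exact ⟨X, stepX he, fun _ => Or.inr (Or.inl h1)⟩
      · exact ⟨R, hR, fun _ => Or.inr (Or.inr ⟨i, hi, h1⟩)⟩
    · exact ⟨X, stepX he, fun h => absurd h hk⟩
  choose R hR hg using hex
  obtain ⟨T, hT⟩ : ∃ T : Finset ℤ,
      T = (Finset.Icc (-(2 : ℤ) ^ B) (2 ^ B)).filter fun n => (p L).eval n = 0 := ⟨_, rfl⟩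
  rw [← hT]
  have hTB : ∀ n ∈ T, n.natAbs ≤ 2 ^ B := by
    intro n hn
    rw [hT, Finset.mem_filter, Finset.mem_Icc] at hn
    have h1 : |n| ≤ 2 ^ B := abs_le.2 hn.1
    rw [Int.abs_eq_natAbs] at h1
    exact_mod_cast h1
  have hT0 : ∀ n ∈ T, (p L).eval n = 0 := by
    intro n hn
    rw [hT, Finset.mem_filter] at hn
    exact hn.2
  obtain ⟨Sk, hSk⟩ : ∃ Sk : ℕ → Finset ℤ, Sk = fun k => T.filter fun n =>
      p k ≠ 0 ∧ (p k).eval n = 0 ∧ (∀ i < k, p i = 0 ∨ (p i).eval n ≠ 0) ∧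
        ∀ i ≤ L, ((R i).leadingCoeff).eval n ≠ 0 := ⟨_, rfl⟩
  obtain ⟨t, htdef⟩ : ∃ t, t = K * (bt e b B (Nat.log 2 (L + 1) + 1) *
      (Nat.log 2 (bt e b B (Nat.log 2 (L + 1) + 1)) + 1)) := ⟨_, rfl⟩
  have hL2 : L ≤ 2 ^ (Nat.log 2 (L + 1) + 1) := by
    have := Nat.lt_pow_succ_log_self (b := 2) (by norm_num) (L + 1)
    omega
  have hSkc : ∀ k ∈ Finset.range (L + 1), (Sk k).card ≤ t := by
    intro k hk
    rw [Finset.mem_range] at hk
    by_cases hpk : p k = 0
    · have h1 : Sk k = ∅ := by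
        rw [hSk]
        simp [hpk]
      rw [h1, Finset.card_empty]
      exact Nat.zero_le _
    · rw [htdef]
      refine one_scale hK he hL2 hR hg (k := k) (by omega) hpk (Sk k) ?_ ?_ ?_ ?_
      · intro n hn
        rw [hSk, Finset.mem_filter] at hn
        exact hTB n hn.1
      · intro n hn
        rw [hSk, Finset.mem_filter] at hn
        exact hn.2.2.1
      · intro n hn
        rw [hSk, Finset.mem_filter] at hn
        exact hn.2.2.2.1
      · intro n hn
        rw [hSk, Finset.mem_filter] at hn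
        exact hn.2.2.2.2
  have hEc : ∀ k ∈ Finset.range (L + 1),
      (T.filter fun n => ((R k).leadingCoeff).eval n = 0).card ≤ e := by
    intro k _
    have h1 : (R k).leadingCoeff ≠ 0 := by
      refine leadingCoeff_ne_zero.2 ?_
      intro h0
      have := (hR k).1
      rw [h0] at this
      simp at this
    exact (card_roots_int _ T h1).trans ((hR k).2.2 _).1
  have hsub : T ⊆ ((Finset.range (L + 1)).biUnion fun k =>
      T.filter fun n => ((R k).leadingCoeff).eval n = 0) ∪ (Finset.range (L + 1)).biUnion Sk := by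
    intro n hn
    rw [Finset.mem_union]
    by_cases hE : ∃ k ≤ L, ((R k).leadingCoeff).eval n = 0
    · left
      obtain ⟨k, hk, h1⟩ := hE
      rw [Finset.mem_biUnion]
      exact ⟨k, Finset.mem_range.2 (by omega), Finset.mem_filter.2 ⟨hn, h1⟩⟩
    · right
      push Not at hE
      have hexk : ∃ k, p k ≠ 0 ∧ (p k).eval n = 0 := ⟨L, hL, hT0 n hn⟩
      have hk1 := Nat.find_spec hexk
      have hk2 : Nat.find hexk ≤ L := Nat.find_min' hexk ⟨hL, hT0 n hn⟩
      rw [Finset.mem_biUnion]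
      refine ⟨Nat.find hexk, Finset.mem_range.2 (by omega), ?_⟩
      rw [hSk, Finset.mem_filter]
      refine ⟨hn, hk1.1, hk1.2, fun i hi => ?_, hE⟩
      have h3 := Nat.find_min hexk hi
      by_cases h4 : p i = 0
      · exact Or.inl h4
      · exact Or.inr fun h5 => h3 ⟨h4, h5⟩
  refine numeric he (le_of_eq htdef) ?_
  refine (Finset.card_le_card hsub).trans ((Finset.card_union_le _ _).trans ?_)
  refine Nat.add_le_add ?_ ?_
  · refine Finset.card_biUnion_le.trans ?_
    have h2 := Finset.sum_le_card_nsmul _ _ _ hEc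
    rwa [Finset.card_range, smul_eq_mul] at h2
  · refine Finset.card_biUnion_le.trans ?_
    have h2 := Finset.sum_le_card_nsmul _ _ _ hSkc
    rwa [Finset.card_range, smul_eq_mul] at h2

end Pool.Agent.TH853.Dag
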